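import Pool.Agent.H24.EH.Defs

/-!
# EHP (S06849): the right end, abstract cancellation lemma

`Theta(y) = ∫ (H(l,y) y' + Psi(l,y))`; if `m ≤ y₁, y₂ ≤ M`, `∫ y₁ = ∫ y₂`, `∫ y₁' = ∫ y₂'` then only the values of
`F_l, F_g, F_lg` at `(l, t)`, `m ≤ t ≤ M`, matter and the difference of the two `Theta` is `O (M - m)`.
-/

set_option autoImplicit false

open MeasureTheory Set Filter Topology intervalIntegral
open scoped Real Interval

noncomputable section

namespace Pool.Agent.H52.EH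

open Pool.Agent.H15.EH

variable {F Fl Fg Fll Flg Fgg Fllg : ℝ → ℝ → ℝ} {e : ℝ}

/-- `H` splits at `m` -/
theorem H_split (h : FData F Fl Fg Fll Flg Fgg Fllg) (he : 0 < e) (l : ℝ) {m g : ℝ} (hm : 0 < m)
    (hg : 0 < g) : H Fg e l g = H Fg e l m + ∫ t in m..g, Fg l t ^ 2 := by
  unfold H
  exact (integral_add_adjacent_intervals (intable (f := fun l t => Fg l t ^ 2) h.cont_Fg2 l he hm)
    (intable (f := fun l t => Fg l t ^ 2) h.cont_Fg2 l hm hg)).symm

theorem Hl_split (h : FData F Fl Fg Fll Flg Fgg Fllg) (he : 0 < e) (l : ℝ) {m g : ℝ} (hm : 0 < m)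
    (hg : 0 < g) : Hl Fg Flg e l g = Hl Fg Flg e l m + ∫ t in m..g, 2 * Fg l t * Flg l t := by
  unfold Hl
  exact (integral_add_adjacent_intervals
    (intable (f := fun l t => 2 * Fg l t * Flg l t) h.cont_FgFlg l he hm)
    (intable (f := fun l t => 2 * Fg l t * Flg l t) h.cont_FgFlg l hm hg)).symm

theorem Psi_split (h : FData F Fl Fg Fll Flg Fgg Fllg) (he : 0 < e) (l : ℝ) {m g : ℝ} (hm : 0 < m)
    (hg : 0 < g) :
    Psi Fl Fg Flg e l g = Psi Fl Fg Flg e l m + W Fl Fg Flg e l m * (g - m) +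
      ∫ t in m..g, (W Fl Fg Flg e l t - W Fl Fg Flg e l m) := by
  have i1 := intable (f := fun l t => W Fl Fg Flg e l t) (h.cont_W he) l he hm
  have i2 := intable (f := fun l t => W Fl Fg Flg e l t) (h.cont_W he) l hm hg
  rw [integral_sub i2 intervalIntegrable_const, intervalIntegral.integral_const, smul_eq_mul]
  unfold Psi
  rw [← integral_add_adjacent_intervals i1 i2]
  ring

/-- bound of the remainder of `H` -/
theorem H_rem (h : FData F Fl Fg Fll Flg Fgg Fllg) (he : 0 < e) (l : ℝ) {m M K g : ℝ} (hm : 0 < m)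
    (hg : g ∈ Icc m M) (hK : ∀ t ∈ Icc m M, |Fg l t| ≤ K) :
    |H Fg e l g - H Fg e l m| ≤ K ^ 2 * (M - m) := by
  have hg0 : 0 < g := hm.trans_le hg.1
  rw [H_split h he l hm hg0, add_sub_cancel_left]
  have h1 : ‖∫ t in m..g, Fg l t ^ 2‖ ≤ K ^ 2 * |g - m| := by
    refine norm_integral_le_of_norm_le_const fun t ht => ?_
    rw [uIoc_of_le hg.1] at ht
    have h2 := hK t ⟨ht.1.le, ht.2.trans hg.2⟩
    rw [Real.norm_eq_abs, abs_pow]
    exact pow_le_pow_left₀ (abs_nonneg _) h2 2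
  rw [Real.norm_eq_abs] at h1
  refine h1.trans (mul_le_mul_of_nonneg_left ?_ (sq_nonneg _))
  rw [abs_of_nonneg (by linarith [hg.1])]
  linarith [hg.2]

/-- bound of the remainder of `W` -/
theorem W_rem (h : FData F Fl Fg Fll Flg Fgg Fllg) (he : 0 < e) (l : ℝ) {m M K g : ℝ} (hm : 0 < m)
    (hMm : M - m ≤ 1) (hg : g ∈ Icc m M) (hKl : ∀ t ∈ Icc m M, |Fl l t| ≤ K)
    (hK : ∀ t ∈ Icc m M, |Fg l t| ≤ K) (hKlg : ∀ t ∈ Icc m M, |Flg l t| ≤ K) :
    |W Fl Fg Flg e l g - W Fl Fg Flg e l m| ≤ 6 * K ^ 2 := by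
  have hg0 : 0 < g := hm.trans_le hg.1
  have hK0 : 0 ≤ K := (abs_nonneg _).trans (hK g hg)
  have hm' : m ∈ Icc m M := ⟨le_rfl, hg.1.trans hg.2⟩
  have h1 : ‖∫ t in m..g, 2 * Fg l t * Flg l t‖ ≤ (2 * K ^ 2) * |g - m| := by
    refine norm_integral_le_of_norm_le_const fun t ht => ?_
    rw [uIoc_of_le hg.1] at ht
    have ht' : t ∈ Icc m M := ⟨ht.1.le, ht.2.trans hg.2⟩
    rw [Real.norm_eq_abs, abs_mul, abs_mul, abs_two, mul_assoc]
    refine mul_le_mul_of_nonneg_left ?_ (by norm_num)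
    rw [sq]
    exact mul_le_mul (hK t ht') (hKlg t ht') (abs_nonneg _) hK0
  have h2 : |g - m| ≤ 1 := by
    rw [abs_of_nonneg (by linarith [hg.1])]; linarith [hg.2]
  have h3 : |∫ t in m..g, 2 * Fg l t * Flg l t| ≤ 2 * K ^ 2 := by
    rw [Real.norm_eq_abs] at h1
    refine h1.trans ?_
    have : 0 ≤ 2 * K ^ 2 := by positivity
    nlinarith
  have h4 : ∀ t ∈ Icc m M, |2 * Fl l t * Fg l t| ≤ 2 * K ^ 2 := by
    intro t ht
    rw [abs_mul, abs_mul, abs_two, mul_assoc, sq]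
    exact mul_le_mul_of_nonneg_left (mul_le_mul (hKl t ht) (hK t ht) (abs_nonneg _) hK0)
      (by norm_num)
  unfold W
  rw [Hl_split h he l hm hg0]
  have h5 := abs_le.1 (h4 g hg)
  have h6 := abs_le.1 (h4 m hm')
  have h7 := abs_le.1 h3
  rw [abs_le]
  constructor <;> linarith [h5.1, h5.2, h6.1, h6.2, h7.1, h7.2]

/-- bound of the remainder of `Psi` -/
theorem Psi_rem (h : FData F Fl Fg Fll Flg Fgg Fllg) (he : 0 < e) (l : ℝ) {m M K g : ℝ} (hm : 0 < m)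
    (hMm : M - m ≤ 1) (hg : g ∈ Icc m M) (hKl : ∀ t ∈ Icc m M, |Fl l t| ≤ K)
    (hK : ∀ t ∈ Icc m M, |Fg l t| ≤ K) (hKlg : ∀ t ∈ Icc m M, |Flg l t| ≤ K) :
    |Psi Fl Fg Flg e l g - Psi Fl Fg Flg e l m - W Fl Fg Flg e l m * (g - m)| ≤
      6 * K ^ 2 * (M - m) := by
  have hg0 : 0 < g := hm.trans_le hg.1
  rw [Psi_split h he l hm hg0]
  have h1 : ‖∫ t in m..g, (W Fl Fg Flg e l t - W Fl Fg Flg e l m)‖ ≤ (6 * K ^ 2) * |g - m| := by
    refine norm_integral_le_of_norm_le_const fun t ht => ?_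
    rw [uIoc_of_le hg.1] at ht
    exact W_rem h he l hm hMm ⟨ht.1.le, ht.2.trans hg.2⟩ hKl hK hKlg
  rw [Real.norm_eq_abs] at h1
  have h2 : |g - m| ≤ M - m := by
    rw [abs_of_nonneg (by linarith [hg.1])]; linarith [hg.2]
  have h3 : ∀ a b c : ℝ, a + b + c - a - b = c := fun a b c => by ring
  rw [h3]
  exact h1.trans (mul_le_mul_of_nonneg_left h2 (by positivity))

/-- the boundary functional for a function `y` on the circle with `l`-derivative `y'` -/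
def Tht (Fl Fg Flg : ℝ → ℝ → ℝ) (e l : ℝ) (y y' : ℝ → ℝ) : ℝ :=
  ∫ φ in (0 : ℝ)..2 * π, (H Fg e l (y φ) * y' φ + Psi Fl Fg Flg e l (y φ))

/-- one function: `Theta` up to `O (M - m)` -/
theorem Tht_near (h : FData F Fl Fg Fll Flg Fgg Fllg) (he : 0 < e) (l : ℝ) {m M K K' : ℝ}
    (hm : 0 < m) (hMm : M - m ≤ 1) (hKl : ∀ t ∈ Icc m M, |Fl l t| ≤ K)
    (hK : ∀ t ∈ Icc m M, |Fg l t| ≤ K) (hKlg : ∀ t ∈ Icc m M, |Flg l t| ≤ K)
    {y y' : ℝ → ℝ} (hy : Continuous y) (hy' : Continuous y') (hmM : ∀ φ, y φ ∈ Icc m M)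
    (hy'K : ∀ φ, |y' φ| ≤ K') :
    |Tht Fl Fg Flg e l y y' - (H Fg e l m * (∫ φ in (0 : ℝ)..2 * π, y' φ) +
      2 * π * (Psi Fl Fg Flg e l m - W Fl Fg Flg e l m * m) +
      W Fl Fg Flg e l m * ∫ φ in (0 : ℝ)..2 * π, y φ)| ≤ 2 * π * (K ^ 2 * (K' + 6) * (M - m)) := by
  have hpi := Real.pi_pos
  have hHc : Continuous fun φ => H Fg e l (y φ) := by
    have h1 : ContinuousOn (H Fg e l) (Ioi 0) := cont_slice (h.cont_H he) l
    exact h1.comp_continuous hy fun φ => hm.trans_le (hmM φ).1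
  have hPc : Continuous fun φ => Psi Fl Fg Flg e l (y φ) := by
    have h1 : ContinuousOn (Psi Fl Fg Flg e l) (Ioi 0) := cont_slice (h.cont_Psi he) l
    exact h1.comp_continuous hy fun φ => hm.trans_le (hmM φ).1
  have e1 : H Fg e l m * (∫ φ in (0 : ℝ)..2 * π, y' φ) +
      2 * π * (Psi Fl Fg Flg e l m - W Fl Fg Flg e l m * m) +
      W Fl Fg Flg e l m * (∫ φ in (0 : ℝ)..2 * π, y φ) =
      ∫ φ in (0 : ℝ)..2 * π, (H Fg e l m * y' φ + (Psi Fl Fg Flg e l m - W Fl Fg Flg e l m * m) +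
        W Fl Fg Flg e l m * y φ) := by
    rw [intervalIntegral.integral_add, intervalIntegral.integral_add,
      intervalIntegral.integral_const_mul, intervalIntegral.integral_const_mul,
      intervalIntegral.integral_const, smul_eq_mul, sub_zero]
    · exact (by fun_prop : Continuous fun φ => H Fg e l m * y' φ).intervalIntegrable _ _
    · exact intervalIntegrable_const
    · exact (by fun_prop : Continuous fun φ => H Fg e l m * y' φ +
        (Psi Fl Fg Flg e l m - W Fl Fg Flg e l m * m)).intervalIntegrable _ _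
    · exact (by fun_prop : Continuous fun φ => W Fl Fg Flg e l m * y φ).intervalIntegrable _ _
  rw [e1, Tht, ← intervalIntegral.integral_sub
    (by exact (by fun_prop : Continuous fun φ => H Fg e l (y φ) * y' φ +
      Psi Fl Fg Flg e l (y φ)).intervalIntegrable _ _)
    (by exact (by fun_prop : Continuous fun φ => H Fg e l m * y' φ +
      (Psi Fl Fg Flg e l m - W Fl Fg Flg e l m * m) +
        W Fl Fg Flg e l m * y φ).intervalIntegrable _ _)]
  have h2 := norm_integral_le_of_norm_le_const (a := 0) (b := 2 * π)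
    (C := K ^ 2 * (K' + 6) * (M - m))
    (f := fun φ => H Fg e l (y φ) * y' φ + Psi Fl Fg Flg e l (y φ) -
      (H Fg e l m * y' φ + (Psi Fl Fg Flg e l m - W Fl Fg Flg e l m * m) +
        W Fl Fg Flg e l m * y φ)) ?_
  · rw [sub_zero, abs_of_pos (by positivity : (0 : ℝ) < 2 * π), Real.norm_eq_abs] at h2
    linarith
  · intro φ _
    have h3 := H_rem h he l hm (hmM φ) hK
    have h4 := Psi_rem h he l hm hMm (hmM φ) hKl hK hKlg
    have h5 : H Fg e l (y φ) * y' φ + Psi Fl Fg Flg e l (y φ) -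
      (H Fg e l m * y' φ + (Psi Fl Fg Flg e l m - W Fl Fg Flg e l m * m) +
        W Fl Fg Flg e l m * y φ) = (H Fg e l (y φ) - H Fg e l m) * y' φ +
        (Psi Fl Fg Flg e l (y φ) - Psi Fl Fg Flg e l m - W Fl Fg Flg e l m * (y φ - m)) := by
      ring
    have hMm0 : 0 ≤ M - m := by linarith [(hmM φ).1, (hmM φ).2]
    rw [h5, Real.norm_eq_abs]
    calc |(H Fg e l (y φ) - H Fg e l m) * y' φ +
        (Psi Fl Fg Flg e l (y φ) - Psi Fl Fg Flg e l m - W Fl Fg Flg e l m * (y φ - m))| ≤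
        |H Fg e l (y φ) - H Fg e l m| * |y' φ| +
        |Psi Fl Fg Flg e l (y φ) - Psi Fl Fg Flg e l m - W Fl Fg Flg e l m * (y φ - m)| := by
          refine (abs_add_le _ _).trans ?_
          rw [abs_mul]
      _ ≤ K ^ 2 * (M - m) * K' + 6 * K ^ 2 * (M - m) := by
          refine add_le_add ?_ h4
          exact mul_le_mul h3 (hy'K φ) (abs_nonneg _) (by positivity)
      _ = K ^ 2 * (K' + 6) * (M - m) := by ring

/-- **the right end, abstract form** -/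
theorem Tht_sub_le (h : FData F Fl Fg Fll Flg Fgg Fllg) (he : 0 < e) (l : ℝ) {m M K K' : ℝ}
    (hm : 0 < m) (hMm : M - m ≤ 1) (hKl : ∀ t ∈ Icc m M, |Fl l t| ≤ K)
    (hK : ∀ t ∈ Icc m M, |Fg l t| ≤ K) (hKlg : ∀ t ∈ Icc m M, |Flg l t| ≤ K)
    {y y' z z' : ℝ → ℝ} (hy : Continuous y) (hy' : Continuous y') (hz : Continuous z)
    (hz' : Continuous z') (hmM : ∀ φ, y φ ∈ Icc m M) (hmM2 : ∀ φ, z φ ∈ Icc m M)
    (hy'K : ∀ φ, |y' φ| ≤ K') (hz'K : ∀ φ, |z' φ| ≤ K')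
    (e1 : ∫ φ in (0 : ℝ)..2 * π, y φ = ∫ φ in (0 : ℝ)..2 * π, z φ)
    (e2 : ∫ φ in (0 : ℝ)..2 * π, y' φ = ∫ φ in (0 : ℝ)..2 * π, z' φ) :
    |Tht Fl Fg Flg e l y y' - Tht Fl Fg Flg e l z z'| ≤
      4 * π * (K ^ 2 * (K' + 6)) * (M - m) := by
  have h1 := Tht_near h he l hm hMm hKl hK hKlg hy hy' hmM hy'K
  have h2 := Tht_near h he l hm hMm hKl hK hKlg hz hz' hmM2 hz'K
  rw [e1, e2] at h1
  have h3 := abs_sub_le_iff.1 h1
  have h4 := abs_sub_le_iff.1 h2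
  rw [abs_le]
  constructor <;> linarith [h3.1, h3.2, h4.1, h4.2]

end Pool.Agent.H52.EH
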